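import Mathlib
import Pool.Agent.Lib.MP_21a1fd_an.Stable
import Pool.Agent.Lib.MP_21a1fd_an.Cheb
import Pool.Agent.Lib.MP_21a1fd_an.Kernel
import Pool.Agent.Lib.MP_21a1fd_an.Limit

set_option autoImplicit false

open Polynomial
open scoped Nat

namespace Pool.Agent.Results.MP_21a1fd_an.SqrtMultiplier

open Pool.Agent.Lib.MP_21a1fd_an

/-- Every complex zero of the real polynomial `p` is real. -/
def OnlyRealZeros (p : ℝ[X]) : Prop := ∀ z : ℂ, aeval z p = 0 → z.im = 0

/-- The polynomial `∑ γ_k a_k x^k` obtained from `p = ∑ a_k x^k`. -/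
noncomputable def applySeq (γ : ℕ → ℝ) (p : ℝ[X]) : ℝ[X] :=
  ∑ k ∈ Finset.range (p.natDegree + 1), C (γ k * p.coeff k) * X ^ k

/-- `γ` is a multiplier sequence: if `p` has only real zeros then so has `∑ γ_k a_k x^k`
(the zero polynomial being admitted as an image, as usual). -/
def IsMultiplierSequence (γ : ℕ → ℝ) : Prop :=
  ∀ p : ℝ[X], OnlyRealZeros p → applySeq γ p = 0 ∨ OnlyRealZeros (applySeq γ p)

theorem applySeq_coeff (γ : ℕ → ℝ) (p : ℝ[X]) (n : ℕ) :
    (applySeq γ p).coeff n = γ n * p.coeff n := by
  unfold applySeq
  rw [finsetSum_coeff]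
  simp only [coeff_C_mul, coeff_X_pow]
  rcases lt_or_ge n (p.natDegree + 1) with h | h
  · rw [Finset.sum_eq_single n]
    · simp
    · intro b _ hb
      rw [if_neg (Ne.symm hb)]
      simp
    · intro hn
      exact absurd (Finset.mem_range.2 h) hn
  · rw [coeff_eq_zero_of_natDegree_lt (show p.natDegree < n by omega), mul_zero]
    apply Finset.sum_eq_zero
    intro k hk
    rw [Finset.mem_range] at hk
    rw [if_neg (by omega)]
    simp

/-- Sanity check: the definition is not vacuous, deleting the linear coefficient is not
a multiplier sequence. -/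
theorem not_isMultiplierSequence_example :
    ¬ IsMultiplierSequence (fun k => if k = 1 then 0 else 1) := by
  intro h
  have hp : OnlyRealZeros ((X + 1) ^ 2) := by
    intro z hz
    simp only [map_pow, map_add, aeval_X, map_one] at hz
    have h1 : z + 1 = 0 := by
      rcases pow_eq_zero_iff (two_ne_zero) |>.1 hz with h2
      exact h2
    have : z = -1 := by linear_combination h1
    rw [this]
    simp
  have himg : applySeq (fun k => if k = 1 then 0 else 1) ((X + 1 : ℝ[X]) ^ 2) = X ^ 2 + 1 := by
    ext n
    rw [applySeq_coeff]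
    have e : ((X + 1 : ℝ[X]) ^ 2) = X ^ 2 + C 2 * X + C 1 := by
      rw [show (C 2 : ℝ[X]) = 2 from rfl, C_1]; ring
    rw [e]
    have e2 : (X ^ 2 + 1 : ℝ[X]) = X ^ 2 + C 1 := by rw [C_1]
    rw [e2]
    simp only [coeff_add, coeff_X_pow, coeff_C_mul, coeff_X, coeff_C]
    rcases n with _ | _ | _ | n
    · norm_num
    · norm_num
    · norm_num
    · have h1 : n + 1 + 1 + 1 ≠ 2 := by omega
      have h2 : (1 : ℕ) ≠ n + 1 + 1 + 1 := by omega
      have h3 : n + 1 + 1 + 1 ≠ 0 := by omega
      simp [h1, h3]
  rcases h _ hp with h0 | h0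
  · rw [himg] at h0
    have := congrArg (fun q => q.eval 0) h0
    simp at this
  · have := h0 Complex.I (by rw [himg]; simp)
    simp at this

/-- Gauss-Lucas for the upper half plane. -/
theorem stab_derivative {A : ℂ[X]} (hA : Stab A) (hd : 0 < A.natDegree) :
    Stab (derivative A) := by
  intro z hz h
  have hA0 : A ≠ 0 := by
    rintro rfl
    simp at hd
  have hmem : z ∈ (derivative A).rootSet ℂ := by
    rw [mem_rootSet]
    refine ⟨?_, by simpa using h⟩
    intro h0
    have := derivative_eq_zero.1 h0
    omega
  have hsub := Polynomial.rootSet_derivative_subset_convexHull_rootSet (P := A)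
    (natDegree_pos_iff_degree_pos.1 hd)
  have h1 := hsub hmem
  have hconv : convexHull ℝ (A.rootSet ℂ) ⊆ {w : ℂ | w.im ≤ 0} := by
    apply convexHull_min
    · intro w hw
      rw [mem_rootSet] at hw
      by_contra hcon
      simp only [Set.mem_ofPred_eq, not_le] at hcon
      exact hA w hcon (by simpa using hw.2)
    · exact convex_halfSpace_im_le 0
  have := hconv h1
  simp only [Set.mem_ofPred_eq] at this
  linarith

/-- The approximants. -/
noncomputable def Bs (N : ℕ) : ℝ[X] :=
  C (4 / ((N : ℝ) + 1) ^ 2) * (Q (cc N) (N + 1)).comp (C (4 / ((N : ℝ) + 1) ^ 2) * X)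

theorem Bs_negRooted (N : ℕ) : NegRooted (Bs N) :=
  Q_negRooted (cc_zero_pos N) N (fun k hk => cc_mono N k hk) (by positivity) (by positivity)

theorem Bs_coeff_tendsto (j : ℕ) : Filter.Tendsto (fun N => (Bs N).coeff j) Filter.atTop
    (nhds (Real.pi * √Real.pi * (√((j + 1 : ℕ) : ℝ) / ((j + 1).factorial : ℝ) ^ 2))) := by
  have h := (coeff_sum_tendsto j).const_mul (4 ^ (j + 1))
  rw [moment_value] at h
  refine h.congr ?_
  intro N
  unfold Bs
  rw [coeff_C_mul, comp_C_mul_X_coeff, Q_coeff, ← Finset.mul_sum]
  have hN : ((N : ℝ) + 1) ≠ 0 := by positivity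
  have e1 : (1 / ((N : ℝ) + 1) ^ (2 * j + 2)) =
      (1 / ((N : ℝ) + 1) ^ 2) * (1 / ((N : ℝ) + 1) ^ 2) ^ j := by
    rw [← pow_succ', ← one_div_pow, ← one_div_pow, ← pow_mul]
    congr 1
  rw [e1, div_eq_mul_one_div (4 : ℝ), mul_pow]
  ring

/-- **The sequence `√k / k!` is a multiplier sequence.** -/
theorem result : IsMultiplierSequence (fun k : ℕ => √(k : ℝ) / (k ! : ℝ)) := by
  intro p hp
  rcases Nat.eq_zero_or_pos p.natDegree with hdeg | hdeg
  · left
    ext n
    rw [applySeq_coeff, coeff_zero]
    rcases Nat.eq_zero_or_pos n with hn | hn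
    · subst hn; simp
    · rw [coeff_eq_zero_of_natDegree_lt (show p.natDegree < n by omega), mul_zero]
  · have hpc : Stab (p.map Complex.ofRealHom) := by
      intro z hz h
      rw [eval_map] at h
      have : z.im = 0 := hp z (by rw [aeval_def]; exact h)
      linarith
    have hdegc : (p.map Complex.ofRealHom).natDegree = p.natDegree :=
      natDegree_map_eq_of_injective Complex.ofRealHom.injective p
    have hA := stab_derivative hpc (by omega)
    set A := derivative (p.map Complex.ofRealHom) with hAdef
    set b : ℕ → ℝ := fun j => Real.pi * √Real.pi * (√((j + 1 : ℕ) : ℝ) / ((j + 1).factorial : ℝ) ^ 2)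
      with hb
    have hcomp := composition_limit (b := b) Bs_negRooted Bs_coeff_tendsto hA
    have hpi : (0 : ℝ) < Real.pi * √Real.pi := by
      have := Real.pi_pos
      positivity
    have hcoeffA : ∀ k, (derivative^[k] A).eval 0 = ((k.factorial : ℂ)) * A.coeff k := by
      intro k
      rw [← coeff_zero_eq_eval_zero, coeff_iterate_derivative]
      simp [Nat.descFactorial_self]
    have hkey : Spol b A 0 * X = C ((Real.pi * √Real.pi : ℝ) : ℂ) *
        (applySeq (fun k : ℕ => √(k : ℝ) / (k ! : ℝ)) p).map Complex.ofRealHom := by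
      ext n
      rw [coeff_C_mul, coeff_map, applySeq_coeff]
      rcases n with _ | n
      · rw [coeff_mul_X_zero]
        simp
      · rw [coeff_mul_X]
        have hS : (Spol b A 0).coeff n = (b n : ℂ) * ((n.factorial : ℂ) * A.coeff n) := by
          unfold Spol
          rw [finsetSum_coeff]
          simp only [coeff_C_mul, coeff_X_pow, hcoeffA]
          rcases lt_or_ge n (A.natDegree + 1) with h | h
          · rw [Finset.sum_eq_single n]
            · simp
            · intro b _ hb
              rw [if_neg (Ne.symm hb)]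
              simp
            · intro hn
              exact absurd (Finset.mem_range.2 h) hn
          · rw [coeff_eq_zero_of_natDegree_lt (show A.natDegree < n by omega)]
            rw [mul_zero, mul_zero]
            apply Finset.sum_eq_zero
            intro k hk
            rw [Finset.mem_range] at hk
            rw [if_neg (by omega)]
            simp
        rw [hS, hAdef, coeff_derivative, coeff_map, hb]
        have hf : ((n + 1).factorial : ℂ) ≠ 0 := by
          exact_mod_cast (Nat.factorial_pos _).ne'
        have hf2 : ((n + 1).factorial : ℂ) = ((n : ℂ) + 1) * (n.factorial : ℂ) := by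
          rw [Nat.factorial_succ]; push_cast; ring
        simp only [Complex.ofRealHom_eq_coe]
        push_cast
        field_simp
        rw [hf2]
        ring
    rcases hcomp with h0 | hstab
    · left
      rw [h0, zero_mul] at hkey
      have h1 : (applySeq (fun k : ℕ => √(k : ℝ) / (k ! : ℝ)) p).map Complex.ofRealHom = 0 := by
        rcases mul_eq_zero.1 hkey.symm with h | h
        · exfalso
          rw [C_eq_zero] at h
          have : Real.pi * √Real.pi = 0 := by exact_mod_cast h
          linarith
        · exact h
      exact (Polynomial.map_eq_zero_iff Complex.ofRealHom.injective).1 h1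
    · right
      have hup : ∀ z : ℂ, 0 < z.im →
          aeval z (applySeq (fun k : ℕ => √(k : ℝ) / (k ! : ℝ)) p) ≠ 0 := by
        intro z hz h
        have h1 : (Spol b A 0 * X).eval z = 0 := by
          rw [hkey, eval_mul, eval_map]
          rw [aeval_def] at h
          have : eval₂ Complex.ofRealHom z
              (applySeq (fun k : ℕ => √(k : ℝ) / (k ! : ℝ)) p) = 0 := h
          rw [this, mul_zero]
        rw [eval_mul, eval_X] at h1
        rcases mul_eq_zero.1 h1 with h2 | h2
        · exact hstab z hz h2
        · rw [h2] at hz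
          simp at hz
      intro z hz
      rcases lt_trichotomy z.im 0 with h | h | h
      · exfalso
        apply hup ((starRingEnd ℂ) z)
        · rw [Complex.conj_im]; linarith
        · rw [aeval_conj, hz, map_zero]
      · exact h
      · exact absurd hz (hup z h)

end Pool.Agent.Results.MP_21a1fd_an.SqrtMultiplier
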